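import Pool.Agent.Helper56.WP.FinalB
import Pool.Agent.Helper65.CF.Fin
import Pool.Agent.Helper65.CF.Wired

/-!
# MP_65faa7_pr: the largest critical clusters of a box under bulk, zero and wired conditions

Bernoulli bond percolation on `ℤ^d` at the critical point, `d` large, unconditional: the conjectured
limits. There are constants `a_b, a_z, a_w > 0` such that the largest bulk cluster and the largest
zero-boundary cluster of the box `[0,n-1]^d`, divided by `n^4 log n`, and the largest wired cluster,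
divided by `n^(d-1)`, converge in probability to `a_b`, `a_z`, `a_w`.
-/

set_option autoImplicit false

open MeasureTheory Filter Topology
open Pool.Agent.Helper56.WP

namespace Pool.Agent.Results.MP_65faa7_pr.BoxLimits

/-- the critical probability of bond percolation on `ℤ^d`: the supremum of the `p ∈ [0,1]` for which
the open cluster of the origin is almost surely finite -/
noncomputable def pc (d : ℕ) : ℝ :=
  sSup {p : ℝ | ∃ h : p ∈ unitInterval,
    perc d ⟨p, h⟩ {ω | {x : Fin d → ℤ | (openG Set.univ ω).Reachable 0 x}.Infinite} = 0}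

/-- number of points of the bulk cluster of `x`: points of the box joined to `x` in `ℤ^d` -/
noncomputable def bulkCard {d : ℕ} (n : ℕ) (ω : Cfg d) (x : Fin d → ℤ) : ℕ :=
  {y : Fin d → ℤ | y ∈ Bx d n ∧ (openG Set.univ ω).Reachable x y}.ncard

/-- size of the largest bulk cluster -/
noncomputable def bulkMax {d : ℕ} (n : ℕ) (ω : Cfg d) : ℕ := (Bx d n).sup (bulkCard n ω)

/-- number of points of the zero-boundary cluster of `x`: points of the box joined to `x` by open
edges with both endpoints in the box -/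
noncomputable def zeroCard {d : ℕ} (n : ℕ) (ω : Cfg d) (x : Fin d → ℤ) : ℕ :=
  {y : Fin d → ℤ | y ∈ Bx d n ∧ (openG (Bx d n : Set (Fin d → ℤ)) ω).Reachable x y}.ncard

/-- size of the largest zero-boundary cluster -/
noncomputable def zeroMax {d : ℕ} (n : ℕ) (ω : Cfg d) : ℕ := (Bx d n).sup (zeroCard n ω)

/-- For all large `d`, at `p = p_c(ℤ^d)`: the largest bulk and zero-boundary clusters of the box
`[0,n-1]^d`, divided by `n^4 log n`, converge in probability to positive constants `ab`, `az`; the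
largest wired cluster, divided by `n^(d-1)`, converges in probability to
`a = 2 d ∑_{r ≥ 0} P(0 ↔ {y | y 0 = r})`, which is finite and larger than `2 d`; if the identified
boundary is counted as one vertex, the limit is `a - 2 d`. -/
theorem result : ∃ d₀ : ℕ, ∀ (d : ℕ) [NeZero d], d₀ ≤ d →
    ∃ p : unitInterval, (p : ℝ) = pc d ∧ ∃ ab az a : ℝ, 0 < ab ∧ 0 < az ∧ 2 * (d : ℝ) < a ∧
      aw d p = ENNReal.ofReal a ∧
      TendstoInMeasure (perc d p)
        (fun (n : ℕ) ω => (bulkMax n ω : ℝ) / ((n : ℝ) ^ 4 * Real.log n)) atTop (fun _ => ab) ∧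
      TendstoInMeasure (perc d p)
        (fun (n : ℕ) ω => (zeroMax n ω : ℝ) / ((n : ℝ) ^ 4 * Real.log n)) atTop (fun _ => az) ∧
      TendstoInMeasure (perc d p) (fun (n : ℕ) ω => (wiredMax n ω : ℝ) / (n : ℝ) ^ (d - 1)) atTop
        (fun _ => a) ∧
      TendstoInMeasure (perc d p) (fun (n : ℕ) ω => (wiredMax1 n ω : ℝ) / (n : ℝ) ^ (d - 1)) atTop
        (fun _ => a - 2 * d) := by
  obtain ⟨d₁, h1⟩ := Pool.CF.bulkLimit
  obtain ⟨d₂, h2⟩ := Pool.CF.zeroLimit
  obtain ⟨d₃, h3⟩ := Pool.CF.wiredLimit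
  refine ⟨max (max d₁ d₂) d₃, ?_⟩
  intro d _ hd
  have e1 : d₁ ≤ d := (le_max_left _ _).trans ((le_max_left _ _).trans hd)
  have e2 : d₂ ≤ d := (le_max_right _ _).trans ((le_max_left _ _).trans hd)
  have e3 : d₃ ≤ d := (le_max_right _ _).trans hd
  obtain ⟨ab, hb, hb'⟩ := h1 d e1 ⟨pc d, Pool.WF.pcW_mem d⟩ rfl
  obtain ⟨az, hz, hz'⟩ := h2 d e2 ⟨pc d, Pool.WF.pcW_mem d⟩ rfl
  obtain ⟨a, ha, ha', hw, hw1⟩ := h3 d e3 ⟨pc d, Pool.WF.pcW_mem d⟩ rfl
  exact ⟨⟨pc d, Pool.WF.pcW_mem d⟩, rfl, ab, az, a, hb, hz, ha, ha', hb', hz', hw, hw1⟩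

end Pool.Agent.Results.MP_65faa7_pr.BoxLimits
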