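import Pool.Agent.Helper56.WP.M_Cheb
import Pool.Agent.Helper56.WP.M_Geo
import Pool.Agent.Helper56.WP.M_Ind
import Pool.Agent.Helper56.WP.M_Lim
import Pool.Agent.Helper56.WP.M_Loc
import Pool.Agent.Helper56.WP.M_Low
import Pool.Agent.Helper56.WP.M_Mean
import Pool.Agent.Helper56.WP.M_Pairs
import Pool.Agent.Helper56.WP.M_Sym
import Pool.Agent.Helper56.WP.M_Tail
import Pool.Agent.Helper56.WP.M_TwoPt
import Pool.Agent.Helper56.WP.M_Upp
import Pool.Agent.Helper56.WP.FinalC

/-!
# MP_65faa7_pr : the largest wired cluster of a box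
-/

set_option autoImplicit false

open MeasureTheory Filter Topology
open Pool.Agent.Helper56.WP

namespace Pool.Agent.Results.MP_65faa7_pr.WiredCluster

/-- Bernoulli bond percolation on `ℤ^d`, every `d ≥ 2` and every `p ∈ [0,1]` (in particular
`p = p_c`). Let `a = 2 d ∑_{r ≥ 0} P(0 ↔ {y | y 0 = r}) ∈ [2d, ∞]`. Then the largest wired cluster
of the box `[0,n-1]^d`, divided by `n^(d-1)`, converges to `a` in probability (if `a = ∞` : it
tends to infinity in probability). If the identified boundary is counted as one vertex, the limit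
is `a - 2 d`. -/
theorem result (d : ℕ) [NeZero d] (p : unitInterval) (hd : 2 ≤ d) :
    2 * (d : ENNReal) ≤ aw d p ∧
    (aw d p ≠ ⊤ →
      TendstoInMeasure (perc d p) (fun (n : ℕ) ω => (wiredMax n ω : ℝ) / (n : ℝ) ^ (d - 1)) atTop
        (fun _ => (aw d p).toReal) ∧
      TendstoInMeasure (perc d p) (fun (n : ℕ) ω => (wiredMax1 n ω : ℝ) / (n : ℝ) ^ (d - 1)) atTop
        (fun _ => (aw d p).toReal - 2 * d)) ∧
    (aw d p = ⊤ → ∀ K : ℝ,
      Tendsto (fun n : ℕ => perc d p {ω | (wiredMax n ω : ℝ) / (n : ℝ) ^ (d - 1) ≤ K}) atTop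
        (𝓝 0) ∧
      Tendsto (fun n : ℕ => perc d p {ω | (wiredMax1 n ω : ℝ) / (n : ℝ) ^ (d - 1) ≤ K}) atTop
        (𝓝 0)) := by
  have hInd := stInd
  have hLoc := stLoc
  have hSym := stSym hInd hLoc
  have hLim := stLim hInd hLoc
  have hCheb := stCheb hInd hLoc
  have hGeo := stGeo hLoc
  have hMean := stMean hInd hLoc hSym hGeo
  have hTwo := stTwoPt hInd hLoc hSym
  have hPairs := stPairs hInd hLoc
  have hTail := stTail
  have hLow := stLow hInd hLoc hSym hLim hCheb hGeo
  have hUpp := stUpp hInd hLoc hMean hLow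
  have hFree := stFree hInd hLim hTwo hPairs hTail
  have hFin := stFinal_of hInd hLim hGeo hLow hUpp hFree
  exact final_of hFin (stFinal1_of hInd hGeo hLow hUpp hFree hFin) d p hd

end Pool.Agent.Results.MP_65faa7_pr.WiredCluster
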